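import Mathlib
import Pool.Agent.Lib.helper1.PakCyc

set_option autoImplicit false
set_option linter.unusedSectionVars false

open Finset Filter Topology Matrix

namespace Pool.Agent.Results.MP_7e070a_pr.NoCutoff

section Defs
variable {n : ℕ} [NeZero n]

/-- Convolution powers of `μ`. -/
noncomputable def conv (μ : ZMod n → ℝ) : ℕ → ZMod n → ℝ
  | 0 => fun x => if x = 0 then 1 else 0
  | t + 1 => fun x => ∑ y, conv μ t y * μ (x - y)

/-- The `ε`-mixing time. -/
noncomputable def tmix (μ : ZMod n → ℝ) (ε : ℝ) : ℕ :=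
  sInf {t : ℕ | (1 / 2) * ∑ x, |conv μ t x - 1 / (n : ℝ)| ≤ ε}

/-- Largest absolute value of a nontrivial eigenvalue. -/
noncomputable def lamStar (μ : ZMod n → ℝ) : ℝ :=
  ⨆ j : {j : ZMod n // j ≠ 0},
    |∑ x, μ x * Real.cos (2 * Real.pi * ((j.1.val : ℝ) * (x.val : ℝ)) / (n : ℝ))|

/-- Relaxation time. -/
noncomputable def trel (μ : ZMod n → ℝ) : ℝ := 1 / (1 - lamStar μ)

end Defs

open Pool.Agent.Lib.helper1.Pak Pool.Agent.Lib.helper1.PakCyc

lemma conv_eq {n : ℕ} [NeZero n] (μ : ZMod n → ℝ) (t : ℕ) (x : ZMod n) :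
    conv μ t x = (M μ ^ t) 0 x := by
  induction t generalizing x with
  | zero => simp [conv, Matrix.one_apply, eq_comm]
  | succ t ih => simp only [conv, ih, pow_succ, Matrix.mul_apply, M]

lemma facts {n : ℕ} [NeZero n] {N : ℕ} {μ : ZMod n → ℝ} (h : GoodW N μ) :
    (N : ℝ) ≤ tmix μ (1 / 4) / trel μ ∧
      (2 : ℝ) ≤ (tmix μ (1 / 20) : ℝ) / (tmix μ (1 - 1 / 20) : ℝ) := by
  have hnum := numerics (fun t => (1 / 2) * ∑ x, |conv μ t x - 1 / (n : ℝ)|) N
    (fun t ht => by simpa only [conv_eq, ZMod.card] using M_low h t ht)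
    (fun k => by simpa only [conv_eq, ZMod.card] using M_up h k)
  refine ⟨?_, hnum.2⟩
  have h1 : lamStar μ ≤ 1 / 2 := by
    refine Real.iSup_le (fun j => ?_) (by norm_num)
    refine le_trans (le_of_eq ?_) ((Complex.abs_re_le_norm _).trans (fourier_le h j.1 j.2))
    congr 1
    rw [Complex.re_sum]
    refine Finset.sum_congr rfl fun x _ => ?_
    rw [Complex.re_ofReal_mul, ← Complex.exp_ofReal_mul_I_re]
    congr 3
    push_cast; ring
  have h2 : 20 * ((N : ℝ) + 1) ≤ tmix μ (1 / 4) := by exact_mod_cast hnum.1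
  have hN : (0 : ℝ) ≤ N := by positivity
  rw [trel, div_div_eq_mul_div, div_one]
  nlinarith

theorem result :
    ∃ (n : ℕ → ℕ) (_ : ∀ k, NeZero (n k)) (μ : ∀ k, ZMod (n k) → ℝ),
      (∀ k, 2 ≤ n k) ∧ Tendsto n atTop atTop ∧
      (∀ k x, 0 < μ k x) ∧ (∀ k, ∑ x, μ k x = 1) ∧ (∀ k x, μ k (-x) = μ k x) ∧
      Tendsto (fun k => (tmix (μ k) (1 / 4) : ℝ) / trel (μ k)) atTop atTop ∧
      ¬ ∀ ε ∈ Set.Ioo (0 : ℝ) (1 / 2),
        Tendsto (fun k => (tmix (μ k) ε : ℝ) / (tmix (μ k) (1 - ε) : ℝ)) atTop (𝓝 1) := by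
  choose n i μ h using packageW
  have hb : ∀ k, k + 2 ≤ n k := fun k => by simpa only [ZMod.card] using (h k).big
  refine ⟨n, i, μ, fun k => by have := hb k; omega, ?_, fun k => (h k).pos', fun k => (h k).sum,
    fun k => (h k).symm, ?_, ?_⟩
  · exact tendsto_atTop_mono (fun k => by have := hb k; simp only [id]; omega) tendsto_id
  · exact tendsto_atTop_mono (fun k => (facts (h k)).1) tendsto_natCast_atTop_atTop
  · intro hc
    have := ge_of_tendsto' (hc (1 / 20) ⟨by norm_num, by norm_num⟩) fun k => (facts (h k)).2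
    linarith

end Pool.Agent.Results.MP_7e070a_pr.NoCutoff
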